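import Pool.Agent.MP_ab344f_co.Rows

open Pool.Agent.MP_ab344f_co

/-- Q1: in every optimal solution of the colouring problem on `r` colours, no two sets of
positive weight, one on each side, share two or more colours. -/
theorem Pool.Agent.Results.MP_ab344f_co.NoOverlap.result (r : ℕ) (hr : 0 < r)
    (a b : Finset (Fin r) → ℝ) (hab : Feasible a b)
    (hopt : ∀ a' b' : Finset (Fin r) → ℝ, Feasible a' b' → cost a b ≤ cost a' b') :
    ¬ ∃ R₁ R₂ : Finset (Fin r), 2 ≤ (R₁ ∩ R₂).card ∧ 0 < a R₁ ∧ 0 < b R₂ :=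
  no_overlap hr a b hab hopt
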