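import Pool.Agent.MP_ab344f_co.Value

open Pool.Agent.MP_ab344f_co

/-- The exact minimum of the colouring problem on `r` colours, for every `r`. -/
theorem Pool.Agent.Results.MP_ab344f_co.OptimalValue.result (r t m : ℕ) (ht : 0 < t)
    (h1 : t ^ 2 ≤ r) (h2 : r < (t + 1) ^ 2) (hm : m = if r ≤ t ^ 2 + t then t else t + 1) :
    IsLeast {c : ℝ | ∃ a b : Finset (Fin r) → ℝ, Feasible a b ∧ cost a b = c}
      ((1 + ((m : ℝ) * (2 * t + 1) - r) / (t * (t + 1))) / m) :=
  exact_value ht h1 h2 hm
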